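import Mathlib
import Pool.Agent.helper67PW.Cluster

/-!
Literal equality with a finite union fails for every polynomial of degree one.
-/

set_option autoImplicit false

universe u

open Polynomial Finset Filter Topology

namespace Pool.Agent.helper67PX.Literal

open Pool.Agent.helper67PW.Cluster

/-- `S` is literally the union of finitely many arithmetic progressions and `p`-sum sets. -/
def IsFiniteUnion (p : ℕ) (S : Set ℕ) : Prop :=
  ∃ F : Set (Set ℚ), F.Finite ∧ (∀ A ∈ F, IsAP A ∨ IsPSumSet p A) ∧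
    (fun n : ℕ => (n : ℚ)) '' S = ⋃₀ F

theorem IsFiniteUnion.trace {p : ℕ} {S : Set ℕ} (h : IsFiniteUnion p S) :
    IsTraceOfFiniteUnion p S := by
  obtain ⟨F, h1, h2, h3⟩ := h
  refine ⟨F, h1, h2, fun n => ?_⟩
  constructor
  · intro hn
    have : (n : ℚ) ∈ ⋃₀ F := by rw [← h3]; exact ⟨n, hn, rfl⟩
    exact this
  · rintro ⟨A, hA, hn⟩
    have : (n : ℚ) ∈ (fun n : ℕ => (n : ℚ)) '' S := by rw [h3]; exact ⟨A, hA, hn⟩
    obtain ⟨m, hm, hmn⟩ := this
    have h4 : (m : ℚ) = (n : ℚ) := hmn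
    have : m = n := by exact_mod_cast h4
    rwa [← this]

theorem exists_L (p E : ℕ) (hp : 2 ≤ p) : ∃ L : ℕ, 1 ≤ L ∧ E * L ^ 3 + 1 < p ^ L := by
  have hp1 : (1 : ℝ) < p := by exact_mod_cast (by omega : 1 < p)
  have h := tendsto_pow_const_div_const_pow_of_one_lt 3 hp1
  have h1 : ∀ᶠ L : ℕ in atTop, (L : ℝ) ^ 3 / (p : ℝ) ^ L < 1 / ((E : ℝ) + 2) :=
    h.eventually_lt_const (by positivity)
  obtain ⟨L, hL, hL1⟩ := (h1.and (eventually_ge_atTop 1)).exists
  refine ⟨L, hL1, ?_⟩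
  have hpL : (0 : ℝ) < (p : ℝ) ^ L := by positivity
  rw [div_lt_div_iff₀ hpL (by positivity)] at hL
  have h3 : (L : ℝ) ^ 3 * ((E : ℝ) + 2) < (p : ℝ) ^ L := by linarith
  have h4 : L ^ 3 * (E + 2) < p ^ L := by exact_mod_cast h3
  have h5 : 1 ≤ L ^ 3 := Nat.one_le_pow _ _ hL1
  nlinarith

theorem pow_mod (p L k : ℕ) : ((p : ℤ) ^ L - 1) ∣ (p : ℤ) ^ k - (p : ℤ) ^ (k % L) := by
  have h1 : (p : ℤ) ^ k - (p : ℤ) ^ (k % L) =
      (p : ℤ) ^ (k % L) * (((p : ℤ) ^ L) ^ (k / L) - 1 ^ (k / L)) := by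
    rw [one_pow, mul_sub, mul_one, ← pow_mul, ← pow_add, Nat.mod_add_div]
  rw [h1]
  exact dvd_mul_of_dvd_right (sub_dvd_pow_sub_pow _ _ _) _

theorem no_ap (p D : ℕ) (N : ℤ) (hp : 2 ≤ p) (hD : 0 < D) (u v : ℕ) (hv : 0 < v)
    (h : ∀ n : ℕ, ∃ k0 k1 k2 : ℕ, (D : ℤ) * (u + v * n) =
      D * (p : ℤ) ^ k0 - D * (p : ℤ) ^ k1 + N * ((p : ℤ) ^ k2 - 1)) : False := by
  obtain ⟨L, hL1, hL⟩ := exists_L p (D * v) hp
  choose k0 k1 k2 hk using h
  have hmaps : ∀ n ∈ range (L ^ 3 + 1),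
      (k0 n % L, k1 n % L, k2 n % L) ∈ (range L) ×ˢ (range L) ×ˢ (range L) := by
    intro n _
    simp only [mem_product, mem_range]
    exact ⟨Nat.mod_lt _ (by omega), Nat.mod_lt _ (by omega), Nat.mod_lt _ (by omega)⟩
  obtain ⟨x, hx, y, hy, hxy, hf⟩ := Finset.exists_ne_map_eq_of_card_lt_of_maps_to
    (by
      rw [card_product, card_product, card_range, card_range]
      have : L * (L * L) = L ^ 3 := by ring
      omega) hmaps
  wlog hlt : x < y generalizing x y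
  · exact this y hy x hx hxy.symm hf.symm (by omega)
  rw [Prod.mk.injEq, Prod.mk.injEq] at hf
  obtain ⟨e0, e1, e2⟩ := hf
  have hdvd : ((p : ℤ) ^ L - 1) ∣ (D : ℤ) * v * ((y : ℤ) - x) := by
    have a0 := pow_mod p L (k0 x)
    have a1 := pow_mod p L (k1 x)
    have a2 := pow_mod p L (k2 x)
    have b0 := pow_mod p L (k0 y)
    have b1 := pow_mod p L (k1 y)
    have b2 := pow_mod p L (k2 y)
    rw [← e0] at b0
    rw [← e1] at b1
    rw [← e2] at b2
    have c0 := (dvd_sub b0 a0).mul_left (D : ℤ)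
    have c1 := (dvd_sub b1 a1).mul_left (D : ℤ)
    have c2 := (dvd_sub b2 a2).mul_left N
    have c3 := dvd_add (dvd_sub c0 c1) c2
    have hx' := hk x
    have hy' := hk y
    obtain ⟨q, hq⟩ := c3
    exact ⟨q, by linear_combination hy' - hx' + hq⟩
  have hpos : 0 < (D : ℤ) * v * ((y : ℤ) - x) := by
    have : (0 : ℤ) < (y : ℤ) - x := by omega
    positivity
  have hle := Int.le_of_dvd hpos hdvd
  rw [mem_range] at hy
  have h1 : (D : ℤ) * v * ((y : ℤ) - x) ≤ (D : ℤ) * v * (L : ℤ) ^ 3 := by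
    apply mul_le_mul_of_nonneg_left _ (by positivity)
    have : (y : ℤ) ≤ (L : ℤ) ^ 3 := by exact_mod_cast (by omega : y ≤ L ^ 3)
    omega
  have h2 : (D : ℤ) * v * (L : ℤ) ^ 3 + 1 < (p : ℤ) ^ L := by exact_mod_cast hL
  linarith

theorem no_psum (p : ℕ) (hp : 2 ≤ p) (A : Set ℚ) (hA : IsPSumSet p A) (hnn : ∀ x ∈ A, 0 ≤ x)
    (I : Set ℕ) (hI : I.Infinite) (hmem : ∀ a ∈ I, ((p : ℚ) ^ (2 * a) - (p : ℚ) ^ a) ∈ A) :
    False := by
  classical
  obtain ⟨m, _, c, k, rfl⟩ := hA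
  have hp1 : (1 : ℚ) < p := by exact_mod_cast (by omega : 1 < p)
  have hc : ∀ j, k j ≠ 0 → 0 ≤ c j := by
    intro j hkj
    by_contra hneg
    push Not at hneg
    obtain ⟨R, hR⟩ : ∃ R : ℚ, R = ∑ i ∈ univ.erase j, c i := ⟨_, rfl⟩
    have h1 : ∀ N : ℕ, 0 ≤ c j * (p : ℚ) ^ (k j * N) + R := by
      intro N
      have h2 := hnn (∑ i, c i * (p : ℚ) ^ (k i * (Pi.single j N : Fin m → ℕ) i)) ⟨_, rfl⟩
      rw [← Finset.add_sum_erase univ _ (mem_univ j), Pi.single_eq_same] at h2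
      have h3 : ∑ i ∈ univ.erase j, c i * (p : ℚ) ^ (k i * (Pi.single j N : Fin m → ℕ) i) = R := by
        rw [hR]
        refine Finset.sum_congr rfl fun i hi => ?_
        rw [Pi.single_eq_of_ne (ne_of_mem_erase hi), mul_zero, pow_zero, mul_one]
      rwa [h3] at h2
    obtain ⟨N, hN⟩ := pow_unbounded_of_one_lt (R / (-(c j))) hp1
    have h4 := h1 N
    have h5 : (p : ℚ) ^ N ≤ (p : ℚ) ^ (k j * N) :=
      pow_le_pow_right₀ hp1.le (Nat.le_mul_of_pos_left N (Nat.pos_of_ne_zero hkj))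
    rw [div_lt_iff₀ (by linarith)] at hN
    nlinarith
  choose! n hn using hmem
  obtain ⟨J, hJ⟩ : ∃ J : Finset (Fin m), J = univ.filter (fun j => k j ≠ 0 ∧ 0 < c j) := ⟨_, rfl⟩
  obtain ⟨C0, hC0⟩ : ∃ C0 : ℚ, C0 = ∑ j, if k j = 0 then c j else 0 := ⟨_, rfl⟩
  have hsum : ∀ a ∈ I, (p : ℚ) ^ (2 * a) - (p : ℚ) ^ a - C0 =
      ∑ j ∈ J, c j * (p : ℚ) ^ (k j * n a j) := by
    intro a ha
    rw [hn a ha, hC0, hJ, Finset.sum_filter, ← Finset.sum_sub_distrib]
    refine Finset.sum_congr rfl fun j _ => ?_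
    by_cases h0 : k j = 0
    · simp [h0]
    · rcases (hc j h0).eq_or_lt with h1 | h1
      · simp [h0, ← h1]
      · simp [h0, h1]
  have hne : (atTop ⊓ 𝓟 I : Filter ℕ).NeBot := by
    rw [← Filter.frequently_mem_iff_neBot, Nat.frequently_atTop_iff_infinite]
    exact hI
  let U : Ultrafilter ℕ := Ultrafilter.of (atTop ⊓ 𝓟 I)
  have hU : (U : Filter ℕ) ≤ atTop ⊓ 𝓟 I := Ultrafilter.of_le _
  have hU1 : (U : Filter ℕ) ≤ atTop := hU.trans inf_le_left
  have hUI : ∀ᶠ a in (U : Filter ℕ), a ∈ I := (hU.trans inf_le_right) (mem_principal_self I)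
  have hpR : (1 : ℝ) < p := by exact_mod_cast (by omega : 1 < p)
  have key := cluster (p : ℝ) hpR (fun j : Fin m => if 0 < c j then (c j : ℝ) else 1)
    (fun j => by
      by_cases h : 0 < c j
      · simp only [h, if_true]
        exact_mod_cast h
      · simp only [h, if_false]
        norm_num) U hU1 (fun a j => ((k j * n a j : ℕ) : ℤ))
    (X ^ 2 - X - C (C0 : ℝ) : ℝ[X]).support.card (X ^ 2 - X - C (C0 : ℝ)) J rfl (by
      filter_upwards [hUI] with a ha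
      have h1 := hsum a ha
      have h2 : (((p : ℚ) ^ (2 * a) - (p : ℚ) ^ a - C0 : ℚ) : ℝ) =
        ((∑ j ∈ J, c j * (p : ℚ) ^ (k j * n a j) : ℚ) : ℝ) := by rw [h1]
      push_cast at h2
      simp only [eval_sub, eval_pow, eval_X, eval_C]
      rw [← pow_mul, mul_comm a 2, h2]
      refine Finset.sum_congr rfl fun j hj => ?_
      rw [hJ, mem_filter] at hj
      rw [if_pos hj.2.2, zpow_natCast])
  have h1 := key.1 1
  have h2 : (X ^ 2 - X - C (C0 : ℝ) : ℝ[X]).coeff 1 = -1 := by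
    rw [coeff_sub, coeff_sub, coeff_X_pow, coeff_X_one, coeff_C]
    norm_num
  rw [h2] at h1
  linarith

variable {𝕜 : Type u} [Field 𝕜] [CharZero 𝕜]

theorem literal_fails (p : ℕ) (hp : 2 ≤ p) (f : 𝕜[X]) (hf : f.natDegree = 1) :
    ¬ IsFiniteUnion p (solSet p f ![f.coeff 1, -f.coeff 1, f.coeff 0]) := by
  classical
  obtain ⟨α, hα⟩ : ∃ α : 𝕜, α = f.coeff 1 := ⟨_, rfl⟩
  obtain ⟨β, hβ⟩ : ∃ β : 𝕜, β = f.coeff 0 := ⟨_, rfl⟩
  rw [← hα, ← hβ]
  have hα0 : α ≠ 0 := by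
    rw [hα, ← hf]
    have : f.leadingCoeff ≠ 0 := by
      rw [leadingCoeff_ne_zero]
      rintro rfl
      simp at hf
    exact this
  have hev : ∀ n : ℕ, f.eval (n : 𝕜) = α * n + β := by
    intro n
    have h1 := Polynomial.eq_X_add_C_of_natDegree_le_one hf.le
    have h2 := congrArg (Polynomial.eval (n : 𝕜)) h1
    rw [h2, hα, hβ]
    simp
  have hsol : ∀ n : ℕ, n ∈ solSet p f ![α, -α, β] → ∃ k0 k1 k2 : ℕ,
      α * n + β = α * (p : 𝕜) ^ k0 - α * (p : 𝕜) ^ k1 + β * (p : 𝕜) ^ k2 := by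
    rintro n ⟨k, hk⟩
    refine ⟨k 0, k 1, k 2, ?_⟩
    rw [← hev, hk, Fin.sum_univ_three]
    simp only [Matrix.cons_val]
    ring
  rintro ⟨F, hFfin, hF, hEq⟩
  have hcast : ∀ a : ℕ, p ^ a ≤ p ^ (2 * a) := fun a =>
    Nat.pow_le_pow_right (by omega) (by omega)
  have hcover : ∀ a : ℕ, ∃ A ∈ F, ((p : ℚ) ^ (2 * a) - (p : ℚ) ^ a) ∈ A := by
    intro a
    have h1 : ((p ^ (2 * a) - p ^ a : ℕ) : ℚ) ∈ ⋃₀ F := by
      rw [← hEq]
      refine ⟨_, ⟨![2 * a, a, 0], ?_⟩, rfl⟩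
      rw [hev, Fin.sum_univ_three, Nat.cast_sub (hcast a)]
      simp only [Matrix.cons_val]
      push_cast
      ring
    rw [Nat.cast_sub (hcast a)] at h1
    push_cast at h1
    exact h1
  choose φ hφF hφmem using hcover
  obtain ⟨A, hAF, hAinf⟩ : ∃ A ∈ F, (φ ⁻¹' {A}).Infinite := by
    by_contra hcon
    push Not at hcon
    have h1 : (⋃ A ∈ F, φ ⁻¹' {A}).Finite := hFfin.biUnion fun A hA => hcon A hA
    have h2 : (⋃ A ∈ F, φ ⁻¹' {A}) = Set.univ := by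
      ext a
      simp only [Set.mem_iUnion, Set.mem_preimage, Set.mem_singleton_iff, Set.mem_univ, iff_true]
      exact ⟨φ a, hφF a, rfl⟩
    rw [h2] at h1
    exact Set.infinite_univ h1
  have hmemA : ∀ a ∈ φ ⁻¹' {A}, ((p : ℚ) ^ (2 * a) - (p : ℚ) ^ a) ∈ A := by
    intro a ha
    have : φ a = A := ha
    rw [← this]
    exact hφmem a
  have hAS : ∀ x ∈ A, ∃ n : ℕ, n ∈ solSet p f ![α, -α, β] ∧ (n : ℚ) = x := by
    intro x hx
    have : x ∈ (fun n : ℕ => (n : ℚ)) '' solSet p f ![α, -α, β] := by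
      rw [hEq]
      exact ⟨A, hAF, hx⟩
    exact this
  rcases hF A hAF with ⟨u, v, hA⟩ | hps
  · rcases Nat.eq_zero_or_pos v with hv | hv
    · obtain ⟨a, ha, hau⟩ := hAinf.exists_gt u
      have h1 := hmemA a ha
      rw [hA] at h1
      obtain ⟨_, h1⟩ := h1
      rw [hv, Nat.cast_zero, zero_mul, add_zero] at h1
      have h2 : a < p ^ a := Nat.lt_pow_self (by omega)
      have h3 : 2 * p ^ a ≤ p ^ (2 * a) := by
        rw [two_mul a, pow_add]
        exact Nat.mul_le_mul_right _ (by omega)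
      have h4 : ((p ^ (2 * a) : ℕ) : ℚ) = ((u + p ^ a : ℕ) : ℚ) := by
        push_cast
        linarith
      have h5 : p ^ (2 * a) = u + p ^ a := by exact_mod_cast h4
      omega
    · have hray : ∀ n : ℕ, ∃ k0 k1 k2 : ℕ, α * (u + v * n) + β =
          α * (p : 𝕜) ^ k0 - α * (p : 𝕜) ^ k1 + β * (p : 𝕜) ^ k2 := by
        intro n
        obtain ⟨x, hx, hxe⟩ := hAS ((u : ℚ) + v * n) (by rw [hA]; exact ⟨n, rfl⟩)
        have hx1 : x = u + v * n := by exact_mod_cast hxe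
        have h1 := hsol x hx
        rw [hx1] at h1
        push_cast at h1
        exact h1
      by_cases hq : ∃ q : ℚ, (q : 𝕜) * α = β
      · obtain ⟨q, hq⟩ := hq
        refine no_ap p q.den q.num hp q.den_pos u v hv fun n => ?_
        obtain ⟨k0, k1, k2, h1⟩ := hray n
        refine ⟨k0, k1, k2, ?_⟩
        have h2 : ((u : 𝕜) + v * n) = (p : 𝕜) ^ k0 - (p : 𝕜) ^ k1 + q * ((p : 𝕜) ^ k2 - 1) := by
          apply mul_left_cancel₀ hα0
          rw [← hq] at h1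
          linear_combination h1
        have h3 : ((u : ℚ) + v * n) = (p : ℚ) ^ k0 - (p : ℚ) ^ k1 + q * ((p : ℚ) ^ k2 - 1) := by
          exact_mod_cast h2
        have h4 : q * q.den = q.num := Rat.mul_den_eq_num q
        have h5 : (q.den : ℚ) * ((u : ℚ) + v * n) =
            q.den * (p : ℚ) ^ k0 - q.den * (p : ℚ) ^ k1 + q.num * ((p : ℚ) ^ k2 - 1) := by
          rw [h3, ← h4]
          ring
        exact_mod_cast h5
      · refine no_ap p 1 0 hp one_pos u v hv fun n => ?_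
        obtain ⟨k0, k1, k2, h1⟩ := hray n
        refine ⟨k0, k1, k2, ?_⟩
        have h2 : (p : 𝕜) ^ k2 - 1 = 0 := by
          by_contra hne
          apply hq
          refine ⟨((u : ℚ) + v * n - (p : ℚ) ^ k0 + (p : ℚ) ^ k1) / ((p : ℚ) ^ k2 - 1), ?_⟩
          push_cast
          field_simp
          linear_combination h1
        have h3 : ((u : 𝕜) + v * n) = (p : 𝕜) ^ k0 - (p : 𝕜) ^ k1 := by
          apply mul_left_cancel₀ hα0
          linear_combination h1 + β * h2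
        have h4 : ((u : ℤ) + v * n) = (p : ℤ) ^ k0 - (p : ℤ) ^ k1 := by
          exact_mod_cast h3
        rw [h4]
        push_cast
        ring
  · refine no_psum p hp A hps (fun x hx => ?_) _ hAinf hmemA
    obtain ⟨n, _, rfl⟩ := hAS x hx
    exact Nat.cast_nonneg n

end Pool.Agent.helper67PX.Literal
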